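import Pool.Agent.Helper24.WS.Edge
import Pool.Agent.Helper24.UG.Asm

/-!
# SO10: mean of the edge term under the weight
-/

set_option autoImplicit false
open MeasureTheory Set Filter Topology
open Pool.Agent.Helper57.Zeta Pool.Agent.Helper57.LH Pool.Agent.Helper57.ED Pool.Agent.Helper54.LG
open Pool.Agent.Helper69.UG
open Pool.Agent.Helper24.WS (Pk Edge EdgeM EdgeM_meas EdgeM_le_near_far abs_Edge_le summable_Pk' Pk_cont EdgeM_nonneg)

namespace Pool.Agent.Helper24.SO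

theorem Edge_meas {X : ℝ} (hX : 0 < X) : Measurable (Edge X) := by
  have hc : ∀ ρ : ZS, Continuous fun t => mx ρ * Pk (za X ρ) (zb X t ρ) := by
    intro ρ
    refine continuous_const.mul ((Pk_cont _).comp ?_)
    unfold zb
    fun_prop
  refine measurable_of_tendsto_metrizable' (atTop : Filter (Finset ZS))
    (f := fun (s : Finset ZS) t => ∑ ρ ∈ s, mx ρ * Pk (za X ρ) (zb X t ρ)) (fun s => ?_) ?_
  · exact (continuous_finsetSum s fun ρ _ => hc ρ).measurable
  · rw [tendsto_pi_nhds]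
    intro t
    exact (summable_Pk' hX t).hasSum

theorem edge_mean_of (far_mean : FarMean) (mMM : MeanMM) (vSS : VarSS) :
    ∃ C c0 T0 : ℝ, 0 < C ∧ ∀ T, T0 ≤ T → ∀ c, Adm c0 T c → ∀ v : ℝ, v ^ 2 = c / 100 →
    ∀ τ u : ℝ, T ≤ τ → τ ≤ 2 * T → |u| ≤ √T →
    Integrable (fun t => wt T c v τ t * |Edge (XX T c) (t + u)|) ∧
    ∫ t, wt T c v τ t * |Edge (XX T c) (t + u)| ≤ C * VV T c v := by
  obtain ⟨C1, c1, T1, hC1, hfar⟩ := far_mean
  obtain ⟨C2, c2, T2, hC2, hMM⟩ := mMM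
  obtain ⟨C4, k2, hC4, hk2, hnear⟩ := Pool.Agent.Helper87.UG.near_pt
  obtain ⟨C5, c5, T5, hC5, hSS⟩ := vSS
  obtain ⟨c6, T6, hmass⟩ := Pool.Agent.Helper60.UG.wmass
  obtain ⟨c7, T7, hrr⟩ := Pool.Agent.Helper60.UG.rr_bd
  refine ⟨104 * (C1 ^ 2 * C4 * (C2 + 2 + (C5 + 2) + 1)) + 104, max (max (max c1 c2) (max c5 c6)) (max (max c7 1)
    (max (C1 ^ 2) ((C1 / k2) ^ 2))), max (max (max T1 T2) (max T5 T6)) (max T7 16), by positivity, ?_⟩
  intro T hT c hc v hv τ u hτ1 hτ2 hu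
  simp only [max_le_iff] at hT
  obtain ⟨⟨⟨hT1, hT2⟩, hT5, hT6⟩, hT7, hT16⟩ := hT
  have hcc := hc.1
  simp only [max_le_iff] at hcc
  obtain ⟨⟨⟨hc1, hc2⟩, hc5, hc6⟩, ⟨hc7, hc01⟩, hcC1, hck2⟩ := hcc
  have hA1 : Adm c1 T c := ⟨hc1, hc.2⟩
  have hA2 : Adm c2 T c := ⟨hc2, hc.2⟩
  have hA5 : Adm c5 T c := ⟨hc5, hc.2⟩
  have hA6 : Adm c6 T c := ⟨hc6, hc.2⟩
  have hA7 : Adm c7 T c := ⟨hc7, hc.2⟩
  have hT0 : 0 < T := by linarith
  have hc0 : 0 < c := by linarith
  have hlog : 0 < Real.log T := Real.log_pos (by linarith)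
  have hX : 0 < XX T c := div_pos hlog hc0
  have hV1 : 1 ≤ VV T c v := (hrr T hT7 c hA7 v hv 0).2
  have hV : 0 < VV T c v := by linarith
  have hτ : |τ| ≤ 2 * T := by rw [abs_le]; constructor <;> linarith
  have hsq : √T ≤ T / 4 := by
    have h4 : (4:ℝ) ≤ √T := by
      rw [show (4:ℝ) = √16 by rw [show (16:ℝ) = 4 ^ 2 by norm_num, Real.sqrt_sq (by norm_num)]]
      exact Real.sqrt_le_sqrt hT16
    nlinarith [Real.mul_self_sqrt hT0.le]
  have hu4 : |u| ≤ T / 4 := hu.trans hsq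
  obtain ⟨hfi, hfb⟩ := hfar T hT1 c hA1 v hv τ u hτ hu4
  obtain ⟨hM1i, hM1b⟩ := hMM T hT2 c hA2 v hv τ u 1 hτ1 hτ2 hu (Or.inl rfl)
  have hS := hSS T hT5 c hA5 v hv τ u 1 (Or.inl rfl)
  obtain ⟨hwi, hwb⟩ := hmass T hT6 c hA6 v hv τ
  rw [div_one] at hM1i hM1b hS
  rw [one_mul] at hM1i hM1b
  set Y := C1 * √c with hY
  have hsc : 0 < √c := Real.sqrt_pos.mpr hc0
  have hY0 : 0 < Y := by positivity
  have hCs : C1 ≤ √c := by
    rw [show C1 = √(C1 ^ 2) by rw [Real.sqrt_sq (by linarith)]]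
    exact Real.sqrt_le_sqrt hcC1
  have hYc : Y ≤ c := by
    calc Y ≤ √c * √c := by rw [hY]; gcongr
      _ = c := Real.mul_self_sqrt hc0.le
  have hYk : Y ≤ k2 * c := by
    have h1 : C1 / k2 ≤ √c := by
      rw [show C1 / k2 = √((C1 / k2) ^ 2) by rw [Real.sqrt_sq (by positivity)]]
      exact Real.sqrt_le_sqrt hck2
    have h2 : C1 ≤ √c * k2 := by rwa [div_le_iff₀ hk2] at h1
    calc Y ≤ (√c * k2) * √c := by rw [hY]; gcongr
      _ = k2 * (√c * √c) := by ring
      _ = k2 * c := by rw [Real.mul_self_sqrt hc0.le]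
  have hYc2 : (Y / c) ^ 2 = C1 ^ 2 / c := by
    rw [hY, div_pow, mul_pow, Real.sq_sqrt hc0.le]
    field_simp
  -- the pointwise bound
  set D := 104 * (C1 ^ 2 * C4) with hD
  have hD0 : 0 ≤ D := by positivity
  set g : ℝ → ℝ := fun t =>
    (D * (|MM (XX T c) (t + u) - c| + 2 + SS (XX T c) (t + u) ^ 2 / c + far T c Y (t + u)) +
      104 * far T c Y (t + u)) with hg
  have hfar0 : ∀ t, 0 ≤ far T c Y t := by
    intro t
    unfold far
    refine tsum_nonneg fun ρ => mul_nonneg (mx_nonneg _) ?_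
    split_ifs
    · exact le_rfl
    · positivity
  have hpt : ∀ t, |Edge (XX T c) (t + u)| ≤ g t := by
    intro t
    have h1 := (abs_Edge_le hX (t + u)).trans (EdgeM_le_near_far (T := T) (c := c) (Y := Y) (by linarith) hc0 hYc (t + u))
    have h2 := hnear T c Y (t + u) (by linarith) hc0 hY0 hYk
    rw [hYc2] at h1
    set M := MM (XX T c) (t + u)
    set S := SS (XX T c) (t + u)
    set F := far T c Y (t + u) with hF
    have hF0 : 0 ≤ F := hfar0 _
    have h3 : |S| ≤ S ^ 2 / c + c := by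
      have h4 : |S| * c ≤ S ^ 2 + c ^ 2 := by
        rw [← sq_abs S]
        nlinarith [sq_nonneg (|S| - c), abs_nonneg S]
      rw [← sub_nonneg]
      have : S ^ 2 / c + c - |S| = (S ^ 2 + c ^ 2 - |S| * c) / c := by field_simp
      rw [this]
      exact div_nonneg (by linarith) hc0.le
    have h5 : near T c Y (t + u) ≤ C4 * (|M - c| + 2 * c + S ^ 2 / c + F) := by
      refine h2.trans (mul_le_mul_of_nonneg_left ?_ hC4.le)
      have := le_abs_self (M - c)
      have := neg_abs_le S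
      linarith
    have h6 : C1 ^ 2 / c * near T c Y (t + u) ≤ C1 ^ 2 * C4 * (|M - c| + 2 + S ^ 2 / c + F) := by
      calc C1 ^ 2 / c * near T c Y (t + u) ≤ C1 ^ 2 / c * (C4 * (|M - c| + 2 * c + S ^ 2 / c + F)) := by gcongr
        _ = C1 ^ 2 * C4 * ((|M - c| + 2 * c + S ^ 2 / c + F) / c) := by ring
        _ ≤ C1 ^ 2 * C4 * (|M - c| + 2 + S ^ 2 / c + F) := by
            gcongr
            rw [div_le_iff₀ hc0]
            have e1 : (|M - c| + 2 + S ^ 2 / c + F) * c = |M - c| * c + 2 * c + S ^ 2 / c * c + F * c := by ring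
            rw [e1]
            have a1 : |M - c| ≤ |M - c| * c := le_mul_of_one_le_right (abs_nonneg _) hc01
            have a2 : S ^ 2 / c ≤ S ^ 2 / c * c := le_mul_of_one_le_right (by positivity) hc01
            have a3 : F ≤ F * c := le_mul_of_one_le_right hF0 hc01
            linarith
    have h8 : 104 * (C1 ^ 2 / c) * near T c Y (t + u) + 76 * F ≤ D * (|M - c| + 2 + S ^ 2 / c + F) + 104 * F := by
      have := mul_le_mul_of_nonneg_left h6 (by norm_num : (0:ℝ) ≤ 104)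
      rw [hD]
      linarith
    simp only [hg]
    linarith
  have hMe : Measurable fun t => Edge (XX T c) (t + u) := (Edge_meas hX).comp (measurable_id.add_const u)
  obtain ⟨B, hB⟩ := SS_bdd (XX T c)
  have hSi : Integrable fun t => wt T c v τ t * SS (XX T c) (t + u) ^ 2 := by
    refine int_wt_mul hwi (((SS_cont _).measurable.comp (measurable_id.add_const u)).pow_const 2) (B := B ^ 2) fun t => ?_
    rw [abs_pow]
    have := hB (t + u)
    gcongr
  set f2 : ℝ → ℝ := fun t => wt T c v τ t * |MM (XX T c) (t + u) - c| with hf2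
  set f3 : ℝ → ℝ := fun t => wt T c v τ t * SS (XX T c) (t + u) ^ 2 with hf3
  set f4 : ℝ → ℝ := fun t => wt T c v τ t * far T c Y (t + u) with hf4
  have i2 : Integrable fun t => f2 t + 2 * wt T c v τ t := hM1i.add (hwi.const_mul 2)
  have i3 : Integrable fun t => f2 t + 2 * wt T c v τ t + c⁻¹ * f3 t := i2.add (hSi.const_mul _)
  have i4 : Integrable fun t => f2 t + 2 * wt T c v τ t + c⁻¹ * f3 t + f4 t := i3.add hfi
  have i5 : Integrable fun t => D * (f2 t + 2 * wt T c v τ t + c⁻¹ * f3 t + f4 t) := i4.const_mul D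
  have i6 : Integrable fun t => D * (f2 t + 2 * wt T c v τ t + c⁻¹ * f3 t + f4 t) + 104 * f4 t :=
    i5.add (hfi.const_mul 104)
  have heq : (fun t => wt T c v τ t * g t) =
      fun t => D * (f2 t + 2 * wt T c v τ t + c⁻¹ * f3 t + f4 t) + 104 * f4 t := by
    funext t
    simp only [hg, hf2, hf3, hf4]
    ring
  have hgi : Integrable fun t => wt T c v τ t * g t := by rw [heq]; exact i6
  have hw0 : ∀ t, 0 ≤ wt T c v τ t := fun t => wt_nonneg hT0 c v τ t
  have hwm : AEStronglyMeasurable (wt T c v τ) volume := hwi.aestronglyMeasurable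
  have hres : Integrable fun t => wt T c v τ t * |Edge (XX T c) (t + u)| := by
    refine hgi.mono' (hwm.mul (by simpa only [Real.norm_eq_abs] using hMe.norm.aestronglyMeasurable)) (Eventually.of_forall fun t => ?_)
    rw [Real.norm_eq_abs, abs_mul, abs_of_nonneg (hw0 t), abs_abs]
    exact mul_le_mul_of_nonneg_left (hpt t) (hw0 t)
  refine ⟨hres, ?_⟩
  have h1 : ∫ t, wt T c v τ t * |Edge (XX T c) (t + u)| ≤ ∫ t, wt T c v τ t * g t :=
    integral_mono hres hgi fun t => mul_le_mul_of_nonneg_left (hpt t) (hw0 t)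
  have h2 : ∫ t, wt T c v τ t * g t =
      (D * ((∫ t, f2 t) + 2 * (∫ t, wt T c v τ t) + c⁻¹ * (∫ t, f3 t) + ∫ t, f4 t) + 104 * ∫ t, f4 t) := by
    rw [heq, integral_add i5 (hfi.const_mul 104), integral_const_mul, integral_const_mul,
      integral_add i3 hfi, integral_add i2 (hSi.const_mul _), integral_add hM1i (hwi.const_mul 2), integral_const_mul,
      integral_const_mul]
  have h3 : ∫ t, wt T c v τ t ≤ 2 * VV T c v := by
    have := (abs_le.mp hwb).2
    have h4 : VV T c v / T ≤ VV T c v := div_le_self hV.le (by linarith)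
    linarith
  have h4 : c⁻¹ * (∫ t, f3 t) ≤ C5 * VV T c v := by
    rw [inv_mul_le_iff₀ hc0]
    linarith
  have h5 : D * ((∫ t, f2 t) + 2 * (∫ t, wt T c v τ t) + c⁻¹ * (∫ t, f3 t) + ∫ t, f4 t) ≤
      D * ((C2 + 2 + (C5 + 2) + 1) * VV T c v) := by
    gcongr
    linarith
  have h6 : 104 * ∫ t, f4 t ≤ 104 * VV T c v := by gcongr
  calc _ ≤ ∫ t, wt T c v τ t * g t := h1
    _ ≤ (D * ((C2 + 2 + (C5 + 2) + 1) * VV T c v) + 104 * VV T c v) := by
        rw [h2]
        linarith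
    _ = _ := by rw [hD]; ring

end Pool.Agent.Helper24.SO

namespace Pool.Agent.Helper49.SO

/-- SO10 -/
theorem edge_mean : ∃ C c0 T0 : ℝ, 0 < C ∧ ∀ T, T0 ≤ T → ∀ c, Adm c0 T c → ∀ v : ℝ, v ^ 2 = c / 100 →
    ∀ τ u : ℝ, T ≤ τ → τ ≤ 2 * T → |u| ≤ √T →
    Integrable (fun t => wt T c v τ t * |Edge (XX T c) (t + u)|) ∧
    ∫ t, wt T c v τ t * |Edge (XX T c) (t + u)| ≤ C * VV T c v :=
  Pool.Agent.Helper24.SO.edge_mean_of (Pool.Agent.Helper24.UG.far_mean Pool.Agent.Helper53.UG.mDeep)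
    Pool.Agent.Helper57.UG.mMM Pool.Agent.Helper65.UG.vSS

end Pool.Agent.Helper49.SO
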